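import Pool.Agent.U333.QN.Main

/-!
# The Crouzeix-type bound for scaled q-numerical ranges

For every complex `n × n` matrix `A`, every `q` with `0 < |q| ≤ 1` and every complex polynomial `p`,
`‖p(A)‖ ≤ c(q) sup_{Ω_q} |p|`, where `Ω_q = W_q(A) / q` and
`c(q) = max(1, 2|q| / (1 + √(1 - |q|²)))`.

Idea: for an invertible positive `S` with condition number `κ = (1 + √(1 - |q|²)) / |q|` the numerical
range of `S⁻¹AS` lies in the union of the closed discs about `⟨Ax, x⟩` with radius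
`√(1 - |q|²)/|q| · ‖Ax - ⟨Ax, x⟩x‖`, whose boundary circles lie in `Ω_q`. The bound with constant `2`
for numerical ranges (from the starting library) then gives `‖S⁻¹ p(A) S‖ ≤ 2`. For an extremal
element `F` of norm `K > 1` of the closure of `{p(A) : |p| ≤ 1 on Ω_q}` a Möbius variation shows
`⟨Fx, x⟩ = 0` at a top singular vector `x`, and a suitable `S` gives `K κ ≤ 2`.
-/

set_option autoImplicit false

open scoped Matrix.Norms.L2Operator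
open Polynomial

namespace Pool.Agent.Results.MP_16d611_an.ScaledRangeBound

/-- The inner product `⟨x, y⟩ = ∑ i, x i * conj (y i)` of `ℂ^n` (linear in the first argument). -/
def ip {n : ℕ} (x y : Fin n → ℂ) : ℂ := ∑ i, x i * (starRingEnd ℂ) (y i)

/-- The `q`-numerical range `W_q(A) = {⟨Ax, y⟩ : ‖x‖ = ‖y‖ = 1, ⟨x, y⟩ = q}`. -/
def qRange {n : ℕ} (A : Matrix (Fin n) (Fin n) ℂ) (q : ℂ) : Set ℂ :=
  {w | ∃ x y : Fin n → ℂ, ip x x = 1 ∧ ip y y = 1 ∧ ip x y = q ∧ w = ip (A.mulVec x) y}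

/-- The scaled `q`-numerical range `Ω_q = W_q(A) / q`. -/
def scaledRange {n : ℕ} (A : Matrix (Fin n) (Fin n) ℂ) (q : ℂ) : Set ℂ :=
  {z | ∃ w ∈ qRange A q, z = w / q}

/-- `c(q) = max(1, 2|q| / (1 + √(1 - |q|²)))`. -/
noncomputable def cst (q : ℂ) : ℝ := max 1 (2 * ‖q‖ / (1 + Real.sqrt (1 - ‖q‖ ^ 2)))

theorem ip_eq {n : ℕ} (x y : Fin n → ℂ) :
    ip x y = inner ℂ (WithLp.toLp 2 y : EuclideanSpace ℂ (Fin n)) (WithLp.toLp 2 x) := by
  rw [EuclideanSpace.inner_eq_star_dotProduct]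
  simp [ip, dotProduct]

theorem ip_self {n : ℕ} (x : Fin n → ℂ) :
    ip x x = 1 ↔ ‖(WithLp.toLp 2 x : EuclideanSpace ℂ (Fin n))‖ = 1 := by
  rw [ip_eq, inner_self_eq_norm_sq_to_K]
  constructor
  · intro h
    have h2 : ‖(WithLp.toLp 2 x : EuclideanSpace ℂ (Fin n))‖ ^ 2 = 1 := by
      have h3 : ((‖(WithLp.toLp 2 x : EuclideanSpace ℂ (Fin n))‖ ^ 2 : ℝ) : ℂ) = ((1 : ℝ) : ℂ) := by
        rw [Complex.ofReal_one, ← h]; push_cast; rfl
      exact Complex.ofReal_injective h3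
    exact (pow_eq_one_iff_of_nonneg (norm_nonneg _) two_ne_zero).mp h2
  · intro h; rw [h]; simp

theorem scaled_eq {n : ℕ} (A : Matrix (Fin n) (Fin n) ℂ) (q : ℂ) :
    scaledRange A q = Pool.Agent.U333.QN.Om (Matrix.toEuclideanCLM (n := Fin n) (𝕜 := ℂ) A) q := by
  have hA : ∀ x : Fin n → ℂ, (WithLp.toLp 2 (A.mulVec x) : EuclideanSpace ℂ (Fin n)) =
      Matrix.toEuclideanCLM (n := Fin n) (𝕜 := ℂ) A (WithLp.toLp 2 x) := fun x => rfl
  ext z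
  constructor
  · rintro ⟨w, ⟨x, y, hx, hy, hxy, rfl⟩, rfl⟩
    refine ⟨WithLp.toLp 2 x, WithLp.toLp 2 y, (ip_self x).mp hx, (ip_self y).mp hy, ?_, ?_⟩
    · rw [← ip_eq, hxy]
    · rw [ip_eq, hA]
  · rintro ⟨x, y, hx, hy, hxy, rfl⟩
    refine ⟨_, ⟨WithLp.ofLp x, WithLp.ofLp y, (ip_self _).mpr (by simpa using hx),
      (ip_self _).mpr (by simpa using hy), ?_, rfl⟩, ?_⟩
    · rw [ip_eq]; simpa using hxy
    · rw [ip_eq, hA]

theorem exists_perp {n : ℕ} (hn : 2 ≤ n) (x : EuclideanSpace ℂ (Fin n)) :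
    ∃ z : EuclideanSpace ℂ (Fin n), ‖z‖ = 1 ∧ inner ℂ z x = 0 := by
  have h1 : (ℂ ∙ x)ᗮ ≠ ⊥ := by
    intro h
    have h2 := Submodule.finrank_add_finrank_orthogonal (ℂ ∙ x)
    rw [h, finrank_bot, finrank_euclideanSpace, Fintype.card_fin] at h2
    have h3 := finrank_span_le_card (R := ℂ) ({x} : Set (EuclideanSpace ℂ (Fin n)))
    simp at h3
    omega
  obtain ⟨z, hz, hz0⟩ := Submodule.exists_mem_ne_zero_of_ne_bot h1
  have hzn : ‖z‖ ≠ 0 := norm_ne_zero_iff.mpr hz0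
  refine ⟨((‖z‖⁻¹ : ℝ) : ℂ) • z, ?_, ?_⟩
  · rw [norm_smul, Complex.norm_real, norm_inv, norm_norm, inv_mul_cancel₀ hzn]
  · rw [inner_smul_left]
    have := (Submodule.mem_orthogonal_singleton_iff_inner_left).mp hz
    rw [this, mul_zero]

/-- **Full positive answer to Q1.** -/
theorem result : ∀ (n : ℕ) (A : Matrix (Fin n) (Fin n) ℂ) (q : ℂ), 1 ≤ n → 0 < ‖q‖ → ‖q‖ ≤ 1 →
    (n = 1 → ‖q‖ = 1) → ∀ p : ℂ[X],
    (scaledRange A q).Nonempty ∧ BddAbove ((fun z => ‖p.eval z‖) '' scaledRange A q) ∧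
      ‖aeval A p‖ ≤ cst q * sSup ((fun z => ‖p.eval z‖) '' scaledRange A q) := by
  intro n A q hn hq0 hq1 hnq p
  have : NeZero n := ⟨by omega⟩
  have : Nontrivial (EuclideanSpace ℂ (Fin n)) := inferInstance
  set φ := Matrix.toEuclideanCLM (n := Fin n) (𝕜 := ℂ) with hφ
  have hz : ∀ x : EuclideanSpace ℂ (Fin n), ‖x‖ = 1 →
      ‖q‖ = 1 ∨ ∃ z : EuclideanSpace ℂ (Fin n), ‖z‖ = 1 ∧ inner ℂ z x = 0 := by
    intro x _
    by_cases h1 : n = 1
    · exact Or.inl (hnq h1)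
    · exact Or.inr (exists_perp (by omega) x)
  have hmat : φ (aeval A p) = aeval (φ A) p :=
    (Polynomial.aeval_algHom_apply (φ.toAlgEquiv.toAlgHom) A p).symm
  have hne : (scaledRange A q).Nonempty := by
    rw [scaled_eq]
    obtain ⟨x, hx⟩ := exists_norm_eq (EuclideanSpace ℂ (Fin n)) zero_le_one
    have hc : (0 : ℝ) ≤ Real.sqrt (1 - ‖q‖ ^ 2) / ‖q‖ * ‖Pool.Agent.U333.QN.dev (φ A) x‖ := by
      positivity
    exact ⟨_, Pool.Agent.U333.QN.mem_Om_circle (φ A) hq0 hq1 hx (hz x hx)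
      ((Real.sqrt (1 - ‖q‖ ^ 2) / ‖q‖ * ‖Pool.Agent.U333.QN.dev (φ A) x‖ : ℝ) : ℂ)
      (by rw [Complex.norm_real, Real.norm_of_nonneg hc])⟩
  have hbdd : BddAbove ((fun z => ‖p.eval z‖) '' scaledRange A q) := by
    have hK : IsCompact (Metric.closedBall (0 : ℂ) (‖φ A‖ / ‖q‖)) := isCompact_closedBall _ _
    have h1 : BddAbove ((fun z => ‖p.eval z‖) '' Metric.closedBall (0 : ℂ) (‖φ A‖ / ‖q‖)) :=
      (hK.image (by fun_prop)).bddAbove
    refine h1.mono (Set.image_mono ?_)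
    rw [scaled_eq]
    rintro z ⟨x, y, hx, hy, _, rfl⟩
    rw [mem_closedBall_zero_iff, norm_div]
    gcongr
    calc ‖(inner ℂ y ((φ A) x) : ℂ)‖ ≤ ‖y‖ * ‖(φ A) x‖ := norm_inner_le_norm _ _
      _ ≤ ‖y‖ * (‖φ A‖ * ‖x‖) := by gcongr; exact (φ A).le_opNorm x
      _ = ‖φ A‖ := by rw [hx, hy]; ring
  refine ⟨hne, hbdd, ?_⟩
  have h := Pool.Agent.U333.QN.main_bound (φ A) hq0 hq1 hz p
    (sSup ((fun z => ‖p.eval z‖) '' scaledRange A q)) (fun w hw =>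
      le_csSup hbdd ⟨w, by rw [scaled_eq]; exact hw, rfl⟩)
  rw [← hmat] at h
  exact h

end Pool.Agent.Results.MP_16d611_an.ScaledRangeBound
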